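import Mathlib
import Pool.Agent.Helper60.BlockGluingDefs

/-!
# Shifts of finite type and their invariant measures: definitions
-/

set_option autoImplicit false

open Filter Topology MeasureTheory

namespace Pool.Agent.Helper19.MC

open Pool.Agent.Helper60.BlockGluing

variable {A : Type}

/-- `X` is a `ℤ²`-shift of finite type: for some `s` and some set `F` of patterns with domain
`{0, …, s-1}²` (a finite set when the alphabet `A` is finite) it is the set of the configurations
which show no pattern of `F` at any place. -/
def IsSFT (X : Set (ℤ × ℤ → A)) : Prop :=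
  ∃ (s : ℕ) (F : Set (Fin s × Fin s → A)), X = {x | ∀ v, block s (shift v x) ∉ F}

/-- `μ` is a shift-invariant Borel probability measure on `X` (the σ-algebra on `ℤ × ℤ → A` is the
product σ-algebra). -/
structure IsInvariantOn [MeasurableSpace A] (X : Set (ℤ × ℤ → A))
    (μ : Measure (ℤ × ℤ → A)) : Prop where
  /-- `μ` is a probability measure. -/
  prob : IsProbabilityMeasure μ
  /-- Almost all configurations lie in `X`. -/
  ae_mem : ∀ᵐ x ∂μ, x ∈ X
  /-- `μ` is invariant under all shifts. -/
  invariant : ∀ v, MeasurePreserving (shift v) μ μ

end Pool.Agent.Helper19.MC
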