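import Mathlib
import Pool.Agent.Helper60.BlockGluingDefs
import Pool.Agent.Helper60.BlockGluingProof
import Pool.Agent.Helper19.MC.Defs

/-!
# Slope smaller than one: superlinear growth of `log |L_n(X)|`
-/

set_option autoImplicit false
set_option linter.unusedTactic false

open Filter Topology

namespace Pool.Agent.Helper19.MC

open Pool.Agent.Helper60.BlockGluing

variable {A : Type}

/-- there are `K` points of `X` with different restrictions to `[0,a) × [0,b)` -/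
def Has (X : Set (ℤ × ℤ → A)) (a b K : ℕ) : Prop :=
  ∃ (ι : Type) (_ : Finite ι) (f : ι → (ℤ × ℤ → A)), Nat.card ι = K ∧ (∀ i, f i ∈ X) ∧
    ∀ i j, (∀ u v : ℕ, u < a → v < b →
      f i ((u : ℤ), (v : ℤ)) = f j ((u : ℤ), (v : ℤ))) → i = j

lemma glueH_rect {X : Set (ℤ × ℤ → A)} (hX : ∀ v, ∀ x ∈ X, shift v x ∈ X) {a b M g : ℕ}
    (ha : a ≤ M) (hb : b ≤ M) (hg : GluesH X M g) {x y : ℤ × ℤ → A} (hx : x ∈ X) (hy : y ∈ X) :
    ∃ z ∈ X, (∀ u v : ℕ, u < a → v < b → z ((u : ℤ), (v : ℤ)) = x ((u : ℤ), (v : ℤ))) ∧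
      ∀ u v : ℕ, u < a → v < b →
        z (((u + (a + g) : ℕ) : ℤ), (v : ℤ)) = y ((u : ℤ), (v : ℤ)) := by
  obtain ⟨z, hz, hz1, hz2⟩ := hg g le_rfl (block M (shift (-((M - a : ℕ) : ℤ), 0) x))
    ⟨_, hX _ x hx, rfl⟩ (block M y) ⟨y, hy, rfl⟩
  refine ⟨shift (((M - a : ℕ) : ℤ), 0) z, hX _ z hz, ?_, ?_⟩
  · intro u v hu hv
    have := congrFun hz1 (⟨u + (M - a), by omega⟩, ⟨v, by omega⟩)
    simp only [block, shift_apply, Prod.mk_add_mk] at this ⊢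
    exact (at_eq z (by push_cast; ring) (by push_cast; ring)).trans
      (this.trans (at_eq x (by push_cast; ring) (by push_cast; ring)))
  · intro u v hu hv
    have := congrFun hz2 (⟨u, by omega⟩, ⟨v, by omega⟩)
    simp only [block, shift_apply, Prod.mk_add_mk] at this ⊢
    refine (at_eq z ?_ (by push_cast; ring)).trans this
    push_cast [Nat.cast_sub ha]
    ring

lemma glueV_rect {X : Set (ℤ × ℤ → A)} (hX : ∀ v, ∀ x ∈ X, shift v x ∈ X) {a b M g : ℕ}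
    (ha : a ≤ M) (hb : b ≤ M) (hg : GluesV X M g) {x y : ℤ × ℤ → A} (hx : x ∈ X) (hy : y ∈ X) :
    ∃ z ∈ X, (∀ u v : ℕ, u < a → v < b → z ((u : ℤ), (v : ℤ)) = x ((u : ℤ), (v : ℤ))) ∧
      ∀ u v : ℕ, u < a → v < b →
        z ((u : ℤ), ((v + (b + g) : ℕ) : ℤ)) = y ((u : ℤ), (v : ℤ)) := by
  obtain ⟨z, hz, hz1, hz2⟩ := hg g le_rfl (block M (shift (0, -((M - b : ℕ) : ℤ)) x))
    ⟨_, hX _ x hx, rfl⟩ (block M y) ⟨y, hy, rfl⟩
  refine ⟨shift (0, ((M - b : ℕ) : ℤ)) z, hX _ z hz, ?_, ?_⟩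
  · intro u v hu hv
    have := congrFun hz1 (⟨u, by omega⟩, ⟨v + (M - b), by omega⟩)
    simp only [block, shift_apply, Prod.mk_add_mk] at this ⊢
    exact (at_eq z (by push_cast; ring) (by push_cast; ring)).trans
      (this.trans (at_eq x (by push_cast; ring) (by push_cast; ring)))
  · intro u v hu hv
    have := congrFun hz2 (⟨u, by omega⟩, ⟨v, by omega⟩)
    simp only [block, shift_apply, Prod.mk_add_mk] at this ⊢
    refine (at_eq z (by push_cast; ring) ?_).trans this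
    push_cast [Nat.cast_sub hb]
    ring

lemma Has.doubleH {X : Set (ℤ × ℤ → A)} (hX : ∀ v, ∀ x ∈ X, shift v x ∈ X) {a b K M g : ℕ}
    (h : Has X a b K) (ha : a ≤ M) (hb : b ≤ M) (hg : GluesH X M g) :
    Has X (2 * a + g) b (K * K) := by
  obtain ⟨ι, hι, f, hK, hfX, hf⟩ := h
  have key : ∀ s : ι × ι, ∃ z ∈ X, (∀ u v : ℕ, u < a → v < b →
      z ((u : ℤ), (v : ℤ)) = f s.1 ((u : ℤ), (v : ℤ))) ∧
      ∀ u v : ℕ, u < a → v < b →
        z (((u + (a + g) : ℕ) : ℤ), (v : ℤ)) = f s.2 ((u : ℤ), (v : ℤ)) := fun s =>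
    glueH_rect hX ha hb hg (hfX s.1) (hfX s.2)
  choose z hzX hz1 hz2 using key
  refine ⟨ι × ι, inferInstance, z, by rw [Nat.card_prod, hK], hzX, ?_⟩
  intro s t hst
  apply Prod.ext
  · apply hf
    intro u v hu hv
    rw [← hz1 s u v hu hv, ← hz1 t u v hu hv]
    exact hst u v (by omega) hv
  · apply hf
    intro u v hu hv
    rw [← hz2 s u v hu hv, ← hz2 t u v hu hv]
    exact hst (u + (a + g)) v (by omega) hv

lemma Has.doubleV {X : Set (ℤ × ℤ → A)} (hX : ∀ v, ∀ x ∈ X, shift v x ∈ X) {a b K M g : ℕ}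
    (h : Has X a b K) (ha : a ≤ M) (hb : b ≤ M) (hg : GluesV X M g) :
    Has X a (2 * b + g) (K * K) := by
  obtain ⟨ι, hι, f, hK, hfX, hf⟩ := h
  have key : ∀ s : ι × ι, ∃ z ∈ X, (∀ u v : ℕ, u < a → v < b →
      z ((u : ℤ), (v : ℤ)) = f s.1 ((u : ℤ), (v : ℤ))) ∧
      ∀ u v : ℕ, u < a → v < b →
        z ((u : ℤ), ((v + (b + g) : ℕ) : ℤ)) = f s.2 ((u : ℤ), (v : ℤ)) := fun s =>
    glueV_rect hX ha hb hg (hfX s.1) (hfX s.2)
  choose z hzX hz1 hz2 using key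
  refine ⟨ι × ι, inferInstance, z, by rw [Nat.card_prod, hK], hzX, ?_⟩
  intro s t hst
  apply Prod.ext
  · apply hf
    intro u v hu hv
    rw [← hz1 s u v hu hv, ← hz1 t u v hu hv]
    exact hst u v hu (by omega)
  · apply hf
    intro u v hu hv
    rw [← hz2 s u v hu hv, ← hz2 t u v hu hv]
    exact hst u (v + (b + g)) hu (by omega)

lemma has_two {X : Set (ℤ × ℤ → A)} (hX : ∀ v, ∀ x ∈ X, shift v x ∈ X) (h2 : X.Nontrivial) :
    Has X 1 1 2 := by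
  obtain ⟨x, hx, y, hy, hxy⟩ := h2
  obtain ⟨v, hv⟩ := Function.ne_iff.1 hxy
  refine ⟨Bool, inferInstance, fun i => shift v (if i then x else y), by simp, ?_, ?_⟩
  · intro i
    cases i
    · exact hX v y hy
    · exact hX v x hx
  · intro i j hij
    have h := hij 0 0 one_pos one_pos
    have e : ((((0 : ℕ) : ℤ), ((0 : ℕ) : ℤ)) + v) = v := by ext <;> simp
    simp only [shift_apply, e] at h
    cases i <;> cases j <;> simp_all

lemma Has.le_N [Finite A] {X : Set (ℤ × ℤ → A)} {a b K M : ℕ} (h : Has X a b K) (ha : a ≤ M)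
    (hb : b ≤ M) : K ≤ N X M := by
  obtain ⟨ι, hι, f, hK, hfX, hf⟩ := h
  rw [← hK]
  refine Nat.card_le_card_of_injective (fun i => (⟨block M (f i), f i, hfX i, rfl⟩ : lang X M)) ?_
  intro i j hij
  have h1 : block M (f i) = block M (f j) := congrArg Subtype.val hij
  rw [block_eq_iff] at h1
  exact hf i j fun u v hu hv => h1 u v (by omega) (by omega)

/-- the rectangle recursion: with slope `c < 1` two doublings multiply the sides by `ρ² < 4` -/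
lemma has_rect {X : Set (ℤ × ℤ → A)} (hX : ∀ v, ∀ x ∈ X, shift v x ∈ X) (h2 : X.Nontrivial)
    {b : ℕ → ℕ} (hb : ∀ n, gluing X n ≤ b n) {n₀ : ℕ} {c : ℝ}
    (hc0 : 0 ≤ c) (hc1 : c < 1) (hc : ∀ n, n₀ ≤ n → (b n : ℝ) ≤ c * n) (k : ℕ) :
    ∃ l w : ℕ, (l : ℝ) ≤ (n₀ + 1) * (((3 + c) / 2) ^ 2) ^ k ∧
      (w : ℝ) ≤ (3 + c) / 2 * ((n₀ + 1) * (((3 + c) / 2) ^ 2) ^ k) ∧ Has X l w (2 ^ (4 ^ k)) := by
  set ρ : ℝ := (3 + c) / 2 with hρ
  have hρ1 : 1 ≤ ρ := by rw [hρ]; linarith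
  have hρ2 : 2 + c * ρ ≤ ρ ^ 2 := by rw [hρ]; nlinarith
  induction k with
  | zero =>
    refine ⟨1, 1, ?_, ?_, by simpa using has_two hX h2⟩
    · have : (0 : ℝ) ≤ n₀ := Nat.cast_nonneg _
      simp only [pow_zero, Nat.cast_one]; linarith
    · have : (0 : ℝ) ≤ n₀ := Nat.cast_nonneg _
      simp only [pow_zero, Nat.cast_one]; nlinarith
  | succ k ih =>
    obtain ⟨l, w, hl, hw, hK⟩ := ih
    set s : ℝ := (n₀ + 1) * (ρ ^ 2) ^ k with hs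
    have hs1 : (n₀ : ℝ) + 1 ≤ s := by
      rw [hs]
      have : (1 : ℝ) ≤ (ρ ^ 2) ^ k := one_le_pow₀ (one_le_pow₀ hρ1)
      have h0 : (0 : ℝ) ≤ n₀ + 1 := by positivity
      nlinarith
    have hs0 : 0 ≤ s := by
      have : (0 : ℝ) ≤ n₀ := Nat.cast_nonneg _
      linarith
    have hsρ : s ≤ ρ * s := by nlinarith
    have hsρ2 : ρ * s ≤ ρ ^ 2 * s := by nlinarith
    -- horizontal doubling
    set M₁ : ℕ := ⌊ρ * s⌋₊ with hM₁
    have hM₁' : (M₁ : ℝ) ≤ ρ * s := Nat.floor_le (by positivity)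
    have hlM : l ≤ M₁ := Nat.le_floor (hl.trans hsρ)
    have hwM : w ≤ M₁ := Nat.le_floor hw
    have hnM : n₀ ≤ M₁ := Nat.le_floor (by linarith)
    have h1 := hK.doubleH hX hlM hwM (glues_of_le (hb M₁)).1
    have hg1 : (b M₁ : ℝ) ≤ c * (ρ * s) :=
      (hc M₁ hnM).trans (mul_le_mul_of_nonneg_left hM₁' hc0)
    have hl1 : ((2 * l + b M₁ : ℕ) : ℝ) ≤ ρ ^ 2 * s := by
      push_cast
      nlinarith
    -- vertical doubling
    set M₂ : ℕ := ⌊ρ ^ 2 * s⌋₊ with hM₂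
    have hM₂' : (M₂ : ℝ) ≤ ρ ^ 2 * s := Nat.floor_le (by positivity)
    have hlM2 : 2 * l + b M₁ ≤ M₂ := Nat.le_floor hl1
    have hwM2 : w ≤ M₂ := Nat.le_floor (hw.trans hsρ2)
    have hnM2 : n₀ ≤ M₂ := Nat.le_floor (by linarith)
    have h3 := h1.doubleV hX hlM2 hwM2 (glues_of_le (hb M₂)).2
    have hg2 : (b M₂ : ℝ) ≤ c * (ρ ^ 2 * s) :=
      (hc M₂ hnM2).trans (mul_le_mul_of_nonneg_left hM₂' hc0)
    have hw1 : ((2 * w + b M₂ : ℕ) : ℝ) ≤ ρ * (ρ ^ 2 * s) := by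
      push_cast
      have : ρ * s * (2 + c * ρ) ≤ ρ * s * ρ ^ 2 := mul_le_mul_of_nonneg_left hρ2 (by positivity)
      nlinarith
    refine ⟨2 * l + b M₁, 2 * w + b M₂, ?_, ?_, ?_⟩
    · refine hl1.trans (le_of_eq ?_)
      rw [hs]; ring
    · refine hw1.trans (le_of_eq ?_)
      rw [hs]; ring
    · have e : (2 : ℕ) ^ 4 ^ (k + 1) = 2 ^ 4 ^ k * 2 ^ 4 ^ k * (2 ^ 4 ^ k * 2 ^ 4 ^ k) := by
        rw [← pow_add, ← pow_add]
        congr 1
        ring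
      rw [e]
      exact h3

/-- **Superlinear growth**: `|L_m(X)| > B^m` for some `m`. -/
theorem exists_N_gt [Finite A] {X : Set (ℤ × ℤ → A)} (hX : ∀ v, ∀ x ∈ X, shift v x ∈ X)
    (h2 : X.Nontrivial) {b : ℕ → ℕ} (hb : ∀ n, gluing X n ≤ b n) {n₀ : ℕ} {c : ℝ}
    (hc0 : 0 ≤ c) (hc1 : c < 1) (hc : ∀ n, n₀ ≤ n → (b n : ℝ) ≤ c * n) (B : ℕ) :
    ∃ m : ℕ, B ^ m < N X m := by
  set ρ : ℝ := (3 + c) / 2 with hρ
  have hρ1 : 1 ≤ ρ := by rw [hρ]; linarith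
  have hρ2 : ρ ^ 2 / 4 < 1 := by rw [hρ]; nlinarith
  have ht : Tendsto (fun k : ℕ => (ρ * (n₀ + 1) * B) * (ρ ^ 2 / 4) ^ k) atTop (𝓝 0) := by
    have := (tendsto_pow_atTop_nhds_zero_of_lt_one (r := ρ ^ 2 / 4) (by positivity) hρ2).const_mul
      (ρ * (n₀ + 1) * B)
    simpa using this
  obtain ⟨k, hk⟩ := (ht.eventually_lt_const (show (0 : ℝ) < 1 by norm_num)).exists
  obtain ⟨l, w, hl, hw, hK⟩ := has_rect hX h2 hb hc0 hc1 hc k
  rw [← hρ] at hl hw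
  have h0 : (0 : ℝ) ≤ (n₀ + 1) * (ρ ^ 2) ^ k := by positivity
  set m : ℕ := ⌊ρ * ((n₀ + 1) * (ρ ^ 2) ^ k)⌋₊ with hm
  have hm' : (m : ℝ) ≤ ρ * ((n₀ + 1) * (ρ ^ 2) ^ k) := Nat.floor_le (by positivity)
  have hlm : l ≤ m := Nat.le_floor (hl.trans (by nlinarith))
  have hwm : w ≤ m := Nat.le_floor hw
  refine ⟨m, lt_of_lt_of_le ?_ (hK.le_N hlm hwm)⟩
  have h4 : B * m < 4 ^ k := by
    have h5 : (B : ℝ) * m < 4 ^ k := by
      have h6 : (B : ℝ) * m ≤ B * (ρ * ((n₀ + 1) * (ρ ^ 2) ^ k)) :=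
        mul_le_mul_of_nonneg_left hm' (Nat.cast_nonneg _)
      have h7 : (B : ℝ) * (ρ * ((n₀ + 1) * (ρ ^ 2) ^ k))
          = 4 ^ k * ((ρ * (n₀ + 1) * B) * (ρ ^ 2 / 4) ^ k) := by
        have h9 : (ρ ^ 2) ^ k = 4 ^ k * (ρ ^ 2 / 4) ^ k := by
          rw [← mul_pow]; congr 1; ring
        rw [h9]; ring
      have h8 : (0 : ℝ) < 4 ^ k := by positivity
      nlinarith
    exact_mod_cast h5
  calc B ^ m ≤ (2 ^ B) ^ m := Nat.pow_le_pow_left (Nat.lt_two_pow_self).le m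
    _ = 2 ^ (B * m) := by rw [pow_mul]
    _ < 2 ^ 4 ^ k := Nat.pow_lt_pow_right (by norm_num) h4

end Pool.Agent.Helper19.MC
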