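import Mathlib
import Pool.Agent.Helper60.BlockGluingDefs
import Pool.Agent.Helper60.BlockGluingProof
import Pool.Agent.Helper19.MC.Defs

/-!
# Swapping blocks with the same frame in a shift of finite type
-/

set_option autoImplicit false
set_option linter.unusedTactic false

open Filter Topology MeasureTheory

namespace Pool.Agent.Helper19.MC

open Pool.Agent.Helper60.BlockGluing

variable {A : Type}

lemma ediv_emod_of {m u r : ℤ} (h0 : 0 ≤ r) (h1 : r < m) :
    (m * u + r) / m = u ∧ (m * u + r) % m = r := by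
  have hm : m ≠ 0 := by omega
  constructor
  · rw [add_comm, Int.add_mul_ediv_left _ _ hm, Int.ediv_eq_zero_of_lt h0 h1, zero_add]
  · rw [add_comm, Int.add_mul_emod_self_left, Int.emod_eq_of_lt h0 h1]

/-- the squares of side `m` with address in `S` are replaced by the square of `y` at the origin -/
noncomputable def swap (m : ℕ) (y : ℤ × ℤ → A) (S : Set (ℤ × ℤ)) (x : ℤ × ℤ → A) : ℤ × ℤ → A := by
  classical
  exact fun w => if (w.1 / (m : ℤ), w.2 / (m : ℤ)) ∈ S then y (w.1 % (m : ℤ), w.2 % (m : ℤ)) else x w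

/-- `y` and `z` agree on the frame of width `s` of the square of side `m` -/
def SameFrame (s m : ℕ) (y z : ℤ × ℤ → A) : Prop :=
  ∀ i j : ℕ, i < m → j < m → (i < s ∨ m ≤ i + s ∨ j < s ∨ m ≤ j + s) →
    y ((i : ℤ), (j : ℤ)) = z ((i : ℤ), (j : ℤ))

lemma swap_apply_of_mem {m : ℕ} {y : ℤ × ℤ → A} {S : Set (ℤ × ℤ)} {x : ℤ × ℤ → A} {u v : ℤ}
    (h : (u, v) ∈ S) {i j : ℤ} (hi0 : 0 ≤ i) (hi : i < m) (hj0 : 0 ≤ j) (hj : j < m) :
    swap m y S x (m * u + i, m * v + j) = y (i, j) := by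
  obtain ⟨h1, h2⟩ := ediv_emod_of (u := u) hi0 hi
  obtain ⟨h3, h4⟩ := ediv_emod_of (u := v) hj0 hj
  simp only [swap, h1, h2, h3, h4, h, if_true]

lemma swap_apply_of_notMem {m : ℕ} {y : ℤ × ℤ → A} {S : Set (ℤ × ℤ)} {x : ℤ × ℤ → A} {u v : ℤ}
    (h : (u, v) ∉ S) {i j : ℤ} (hi0 : 0 ≤ i) (hi : i < m) (hj0 : 0 ≤ j) (hj : j < m) :
    swap m y S x (m * u + i, m * v + j) = x (m * u + i, m * v + j) := by
  obtain ⟨h1, h2⟩ := ediv_emod_of (u := u) hi0 hi
  obtain ⟨h3, h4⟩ := ediv_emod_of (u := v) hj0 hj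
  simp only [swap, h1, h3, h, if_false]

lemma swap_mem {X : Set (ℤ × ℤ → A)} {s : ℕ} {F : Set (Fin s × Fin s → A)}
    (hXF : X = {x | ∀ v, block s (shift v x) ∉ F}) {m : ℕ} (hm : 0 < m) {y z x : ℤ × ℤ → A}
    (hz : z ∈ X) (hx : x ∈ X) (hyz : SameFrame s m y z) {S : Set (ℤ × ℤ)}
    (hS : ∀ u v : ℤ, (u, v) ∈ S → ∀ i j : ℕ, i < m → j < m →
      x (m * u + i, m * v + j) = y ((i : ℤ), (j : ℤ))) : swap m z S x ∈ X := by
  have hm' : (0 : ℤ) < m := by exact_mod_cast hm
  rw [hXF] at hz hx ⊢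
  intro v
  by_cases hA : ∀ i j : ℕ, i < s → j < s →
      swap m z S x ((i : ℤ) + v.1, (j : ℤ) + v.2) = x ((i : ℤ) + v.1, (j : ℤ) + v.2)
  · have e : block s (shift v (swap m z S x)) = block s (shift v x) := by
      rw [block_shift_eq_iff]; exact hA
    rw [e]
    exact hx v
  · push Not at hA
    obtain ⟨i₀, j₀, hi₀, hj₀, hne⟩ := hA
    -- the cell w₀
    set u₁ : ℤ := ((i₀ : ℤ) + v.1) / m with hu₁
    set u₂ : ℤ := ((j₀ : ℤ) + v.2) / m with hu₂
    set r₁ : ℤ := ((i₀ : ℤ) + v.1) % m with hr₁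
    set r₂ : ℤ := ((j₀ : ℤ) + v.2) % m with hr₂
    have e₁ : (i₀ : ℤ) + v.1 = m * u₁ + r₁ := (Int.mul_ediv_add_emod _ _).symm
    have e₂ : (j₀ : ℤ) + v.2 = m * u₂ + r₂ := (Int.mul_ediv_add_emod _ _).symm
    have hr₁0 : 0 ≤ r₁ := Int.emod_nonneg _ hm'.ne'
    have hr₂0 : 0 ≤ r₂ := Int.emod_nonneg _ hm'.ne'
    have hr₁m : r₁ < m := Int.emod_lt_of_pos _ hm'
    have hr₂m : r₂ < m := Int.emod_lt_of_pos _ hm'
    have hmem : (u₁, u₂) ∈ S := by
      by_contra hcon
      apply hne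
      rw [e₁, e₂]
      exact swap_apply_of_notMem hcon hr₁0 hr₁m hr₂0 hr₂m
    obtain ⟨a, ha⟩ := Int.eq_ofNat_of_zero_le hr₁0
    obtain ⟨b, hb⟩ := Int.eq_ofNat_of_zero_le hr₂0
    have ham : a < m := by omega
    have hbm : b < m := by omega
    have hint : ¬ (a < s ∨ m ≤ a + s ∨ b < s ∨ m ≤ b + s) := by
      intro hcon
      apply hne
      rw [e₁, e₂, swap_apply_of_mem hmem hr₁0 hr₁m hr₂0 hr₂m, ha, hb,
        hS u₁ u₂ hmem a b ham hbm, hyz a b ham hbm hcon]
    push Not at hint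
    obtain ⟨h1, h2, h3, h4⟩ := hint
    have e : block s (shift v (swap m z S x))
        = block s (shift (v.1 - m * u₁, v.2 - m * u₂) z) := by
      rw [block_shift_eq_iff]
      intro i j hi hj
      have f₁ : (i : ℤ) + v.1 = m * u₁ + ((i : ℤ) + (v.1 - m * u₁)) := by ring
      have f₂ : (j : ℤ) + v.2 = m * u₂ + ((j : ℤ) + (v.2 - m * u₂)) := by ring
      have g₁ : (i : ℤ) + (v.1 - m * u₁) = (i : ℤ) - i₀ + a := by
        have : v.1 = m * u₁ + r₁ - i₀ := by linarith
        rw [this, ha]; ring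
      have g₂ : (j : ℤ) + (v.2 - m * u₂) = (j : ℤ) - j₀ + b := by
        have : v.2 = m * u₂ + r₂ - j₀ := by linarith
        rw [this, hb]; ring
      rw [f₁, f₂]
      exact swap_apply_of_mem hmem (by rw [g₁]; omega) (by rw [g₁]; omega)
        (by rw [g₂]; omega) (by rw [g₂]; omega)
    rw [e]
    exact hz _

/-- If the block of `y` occurs in `x` at the addresses `O ⊆ {0,…,K-1}²`, then there are at least
`2^|O|` patterns of size `K m`. -/
lemma two_pow_le_N [Finite A] {X : Set (ℤ × ℤ → A)} {s : ℕ} {F : Set (Fin s × Fin s → A)}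
    (hXF : X = {x | ∀ v, block s (shift v x) ∉ F}) {m : ℕ} (hm : 0 < m) {y z x : ℤ × ℤ → A}
    (hz : z ∈ X) (hx : x ∈ X) (hyz : SameFrame s m y z) (hne : block m y ≠ block m z) {K : ℕ}
    (O : Finset (Fin K × Fin K))
    (hO : ∀ t ∈ O, block m (shift (((t.1 : ℕ) : ℤ) * m, ((t.2 : ℕ) : ℤ) * m) x) = block m y) :
    2 ^ O.card ≤ N X (K * m) := by
  classical
  let addr : Finset (Fin K × Fin K) → Set (ℤ × ℤ) := fun T =>
    {w | ∃ t ∈ T, (((t.1 : ℕ) : ℤ), ((t.2 : ℕ) : ℤ)) = w}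
  have hocc : ∀ T ⊆ O, ∀ u v : ℤ, (u, v) ∈ addr T → ∀ i j : ℕ, i < m → j < m →
      x (m * u + i, m * v + j) = y ((i : ℤ), (j : ℤ)) := by
    rintro T hT u v ⟨t, ht, e⟩ i j hi hj
    have h := hO t (hT ht)
    have h1 := congrFun h (⟨i, hi⟩, ⟨j, hj⟩)
    simp only [block, shift_apply, Prod.mk_add_mk] at h1
    have e1 := congrArg Prod.fst e
    have e2 := congrArg Prod.snd e
    simp only at e1 e2
    rw [← e1, ← e2]
    exact (at_eq x (by ring) (by ring)).trans h1
  have hmem : ∀ T ⊆ O, swap m z (addr T) x ∈ X := fun T hT =>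
    swap_mem hXF hm hz hx hyz (hocc T hT)
  let G : {T // T ∈ O.powerset} → lang X (K * m) := fun T =>
    ⟨block (K * m) (swap m z (addr T.1) x), _, hmem T.1 (Finset.mem_powerset.1 T.2), rfl⟩
  -- one inclusion
  have hincl : ∀ T T' : Finset (Fin K × Fin K), T ⊆ O → T' ⊆ O →
      block (K * m) (swap m z (addr T) x) = block (K * m) (swap m z (addr T') x) → T ⊆ T' := by
    intro T T' hT hT' h t ht
    by_contra hcon
    apply hne
    rw [block_eq_iff] at h ⊢
    intro i j hi hj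
    have hmT : (((t.1 : ℕ) : ℤ), ((t.2 : ℕ) : ℤ)) ∈ addr T := ⟨t, ht, rfl⟩
    have hmT' : (((t.1 : ℕ) : ℤ), ((t.2 : ℕ) : ℤ)) ∉ addr T' := by
      rintro ⟨t', ht', e⟩
      apply hcon
      have e1 := congrArg Prod.fst e
      have e2 := congrArg Prod.snd e
      simp only at e1 e2
      have : t' = t := Prod.ext (Fin.ext (by exact_mod_cast e1)) (Fin.ext (by exact_mod_cast e2))
      rwa [← this]
    have hbound : ∀ (c : Fin K) (i : ℕ), i < m → m * (c : ℕ) + i < K * m := by
      intro c i hi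
      have h1 : (c : ℕ) + 1 ≤ K := c.2
      calc m * (c : ℕ) + i < m * (c : ℕ) + m := by omega
        _ = m * ((c : ℕ) + 1) := by ring
        _ ≤ m * K := Nat.mul_le_mul_left _ h1
        _ = K * m := by ring
    have h1 := h (m * (t.1 : ℕ) + i) (m * (t.2 : ℕ) + j) (hbound t.1 i hi) (hbound t.2 j hj)
    push_cast at h1
    rw [swap_apply_of_mem hmT (by positivity) (by exact_mod_cast hi) (by positivity)
      (by exact_mod_cast hj), swap_apply_of_notMem hmT' (by positivity) (by exact_mod_cast hi)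
      (by positivity) (by exact_mod_cast hj)] at h1
    rw [h1]
    exact (hocc T hT _ _ hmT i j hi hj).symm
  have hG : Function.Injective G := by
    intro T T' h
    have h1 : block (K * m) (swap m z (addr T.1) x) = block (K * m) (swap m z (addr T'.1) x) :=
      congrArg Subtype.val h
    have hT := Finset.mem_powerset.1 T.2
    have hT' := Finset.mem_powerset.1 T'.2
    exact Subtype.ext (Finset.Subset.antisymm (hincl _ _ hT hT' h1) (hincl _ _ hT' hT h1.symm))
  have hcard := Nat.card_le_card_of_injective G hG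
  have e : Nat.card {T // T ∈ O.powerset} = 2 ^ O.card := by
    rw [Nat.card_eq_fintype_card, Fintype.card_coe, Finset.card_powerset]
  rw [e] at hcard
  exact hcard

/-- a point with many occurrences -/
lemma exists_many [MeasurableSpace A] [MeasurableSingletonClass A] {X : Set (ℤ × ℤ → A)}
    {μ : Measure (ℤ × ℤ → A)} (hμ : IsInvariantOn X μ) (m K : ℕ) (P : Fin m × Fin m → A) :
    ∃ x ∈ X, ∃ O : Finset (Fin K × Fin K),
      (∀ t ∈ O, block m (shift (((t.1 : ℕ) : ℤ) * m, ((t.2 : ℕ) : ℤ) * m) x) = P) ∧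
      (K : ENNReal) ^ 2 * μ {x | block m x = P} ≤ O.card := by
  classical
  have := hμ.prob
  have hE : MeasurableSet {x : ℤ × ℤ → A | block m x = P} := by
    have hb : Measurable (block m : (ℤ × ℤ → A) → _) :=
      measurable_pi_lambda _ fun i => measurable_pi_apply _
    exact hb (measurableSet_singleton P)
  set E : Set (ℤ × ℤ → A) := {x | block m x = P} with hEdef
  let vec : Fin K × Fin K → ℤ × ℤ := fun t => (((t.1 : ℕ) : ℤ) * m, ((t.2 : ℕ) : ℤ) * m)
  let f : (ℤ × ℤ → A) → ENNReal := fun x =>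
    ∑ t : Fin K × Fin K, (shift (vec t) ⁻¹' E).indicator 1 x
  have hmeas : ∀ t, MeasurableSet (shift (vec t) ⁻¹' E) := fun t =>
    (hμ.invariant (vec t)).measurable hE
  have hint : ∫⁻ x, f x ∂μ = (K : ENNReal) ^ 2 * μ E := by
    simp only [f]
    rw [lintegral_finsetSum _ fun t _ => measurable_one.indicator (hmeas t)]
    have : ∀ t ∈ (Finset.univ : Finset (Fin K × Fin K)),
        ∫⁻ x, (shift (vec t) ⁻¹' E).indicator 1 x ∂μ = μ E := by
      intro t _
      rw [lintegral_indicator_one (hmeas t)]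
      exact (hμ.invariant (vec t)).measure_preimage hE.nullMeasurableSet
    rw [Finset.sum_congr rfl this, Finset.sum_const, Finset.card_univ, Fintype.card_prod,
      Fintype.card_fin, nsmul_eq_mul]
    push_cast
    ring
  have hfin : ∫⁻ x, f x ∂μ ≠ ⊤ := by
    rw [hint]
    exact ENNReal.mul_ne_top (by simp) (measure_ne_top _ _)
  obtain ⟨x, hx, hle⟩ := exists_notMem_null_lintegral_le hfin (mem_ae_iff.1 hμ.ae_mem)
  have hxX : x ∈ X := by
    by_contra h
    exact hx h
  refine ⟨x, hxX, Finset.univ.filter (fun t => shift (vec t) x ∈ E), ?_, ?_⟩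
  · intro t ht
    exact (Finset.mem_filter.1 ht).2
  · rw [← hint]
    refine hle.trans (le_of_eq ?_)
    simp only [f, Set.indicator_apply, Set.mem_preimage, Pi.one_apply]
    rw [Finset.sum_ite, Finset.sum_const_zero, add_zero, Finset.sum_const, nsmul_eq_mul, mul_one]

/-- **Patterns of positive frequency are rigid** in a shift of finite type of zero entropy. -/
theorem null_of_swap [Finite A] [MeasurableSpace A] [MeasurableSingletonClass A]
    {X : Set (ℤ × ℤ → A)} {s : ℕ} {F : Set (Fin s × Fin s → A)}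
    (hXF : X = {x | ∀ v, block s (shift v x) ∉ F}) (h0 : HasEntropy X 0) {m : ℕ} (hm : 0 < m)
    {y z : ℤ × ℤ → A} (hz : z ∈ X) (hyz : SameFrame s m y z)
    (hne : block m y ≠ block m z) {μ : Measure (ℤ × ℤ → A)} (hμ : IsInvariantOn X μ) :
    μ {x | block m x = block m y} = 0 := by
  have := hμ.prob
  by_contra hcon
  set δ : ℝ := (μ {x | block m x = block m y}).toReal with hδ
  have hδ0 : 0 < δ := ENNReal.toReal_pos hcon (measure_ne_top _ _)
  have hm' : (0 : ℝ) < m := by exact_mod_cast hm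
  have hlog2 : 0 < Real.log 2 := Real.log_pos (by norm_num)
  have key : ∀ K : ℕ, 1 ≤ K → δ * Real.log 2 / (m : ℝ) ^ 2 ≤
      Real.log (Nat.card (lang X (K * m))) / ((K * m : ℕ) : ℝ) ^ 2 := by
    intro K hK
    obtain ⟨x, hx, O, hO, hcard⟩ := exists_many hμ m K (block m y)
    have h1 := two_pow_le_N hXF hm hz hx hyz hne O hO
    have h2 : (K : ℝ) ^ 2 * δ ≤ O.card := by
      have := ENNReal.toReal_mono (by simp) hcard
      rw [ENNReal.toReal_mul, ENNReal.toReal_pow, ENNReal.toReal_natCast,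
        ENNReal.toReal_natCast] at this
      exact this
    have hK' : (0 : ℝ) < K := by exact_mod_cast hK
    have h3 : (O.card : ℝ) * Real.log 2 ≤ Real.log (Nat.card (lang X (K * m))) := by
      have h4 : ((2 : ℝ) ^ O.card) ≤ (Nat.card (lang X (K * m)) : ℝ) := by
        exact_mod_cast h1
      calc (O.card : ℝ) * Real.log 2 = Real.log ((2 : ℝ) ^ O.card) := by rw [Real.log_pow]
        _ ≤ _ := Real.log_le_log (by positivity) h4
    rw [div_le_div_iff₀ (by positivity) (by push_cast; positivity)]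
    push_cast
    have h5 : (K : ℝ) ^ 2 * δ * Real.log 2 ≤ Real.log (Nat.card (lang X (K * m))) :=
      (mul_le_mul_of_nonneg_right h2 hlog2.le).trans h3
    calc δ * Real.log 2 * ((K : ℝ) * m) ^ 2 = ((K : ℝ) ^ 2 * δ * Real.log 2) * (m : ℝ) ^ 2 := by
          ring
      _ ≤ _ := mul_le_mul_of_nonneg_right h5 (by positivity)
  have ht : Tendsto (fun K : ℕ => Real.log (Nat.card (lang X (K * m))) / ((K * m : ℕ) : ℝ) ^ 2)
      atTop (𝓝 0) := by
    have h1 : Tendsto (fun K : ℕ => K * m) atTop atTop :=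
      tendsto_id.atTop_mul_const' hm
    exact h0.comp h1
  have hle : δ * Real.log 2 / (m : ℝ) ^ 2 ≤ 0 := by
    apply ge_of_tendsto ht
    filter_upwards [eventually_ge_atTop 1] with K hK using key K hK
  have hpos : 0 < δ * Real.log 2 / (m : ℝ) ^ 2 := by positivity
  linarith

end Pool.Agent.Helper19.MC
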