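import Mathlib
import Pool.Agent.Helper60.BlockGluingDefs
import Pool.Agent.Helper60.BlockGluingProof
import Pool.Agent.Helper19.MC.Defs
import Pool.Agent.Helper19.MC.Growth
import Pool.Agent.Helper19.MC.Swap

/-!
# The measure centre of a zero entropy shift of finite type with slope smaller than one
-/

set_option autoImplicit false
set_option linter.unusedTactic false

open Filter Topology MeasureTheory

namespace Pool.Agent.Helper19.MC

open Pool.Agent.Helper60.BlockGluing

variable {A : Type}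

lemma isSFT_shift {X : Set (ℤ × ℤ → A)} (hX : IsSFT X) : ∀ v, ∀ x ∈ X, shift v x ∈ X := by
  obtain ⟨s, F, rfl⟩ := hX
  intro v x hx w
  rw [shift_shift]
  exact hx _

/-- If the frame of width `s` determines every pattern of size `m`, there are few patterns. -/
lemma N_le_of_rigid [Finite A] {X : Set (ℤ × ℤ → A)} {s m : ℕ}
    (h : ∀ y ∈ X, ∀ z ∈ X, SameFrame s m y z → block m y = block m z) :
    N X m ≤ (Nat.card A ^ s * (Nat.card A ^ s * (Nat.card A ^ s * Nat.card A ^ s))) ^ m := by
  have key : ∀ p : lang X m, ∃ x ∈ X, block m x = p.1 := fun p => p.2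
  choose y hyX hy using key
  let G : lang X m → (Fin m → (Fin s → A) × (Fin s → A) × (Fin s → A) × (Fin s → A)) :=
    fun p j => (fun i => y p (((i : ℕ) : ℤ), ((j : ℕ) : ℤ)),
      fun i => y p ((m : ℤ) - s + ((i : ℕ) : ℤ), ((j : ℕ) : ℤ)),
      fun i => y p (((j : ℕ) : ℤ), ((i : ℕ) : ℤ)),
      fun i => y p (((j : ℕ) : ℤ), (m : ℤ) - s + ((i : ℕ) : ℤ)))
  have hG : Function.Injective G := by
    intro p q hpq
    apply Subtype.ext
    rw [← hy p, ← hy q]
    apply h _ (hyX p) _ (hyX q)
    intro i j hi hj hij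
    have hj1 := congrFun hpq ⟨j, hj⟩
    have hi1 := congrFun hpq ⟨i, hi⟩
    simp only [G, Prod.mk.injEq] at hj1 hi1
    obtain ⟨a1, a2, -, -⟩ := hj1
    obtain ⟨-, -, a3, a4⟩ := hi1
    by_cases h1 : i < s
    · exact congrFun a1 ⟨i, h1⟩
    by_cases h2 : j < s
    · exact congrFun a3 ⟨j, h2⟩
    rcases hij with h3 | h3 | h3 | h3
    · exact absurd h3 h1
    · have e := congrFun a2 ⟨i + s - m, by omega⟩
      refine (at_eq (y p) ?_ rfl).trans (e.trans (at_eq (y q) ?_ rfl))
      · simp only []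
        omega
      · simp only []
        omega
    · exact absurd h3 h2
    · have e := congrFun a4 ⟨j + s - m, by omega⟩
      refine (at_eq (y p) rfl ?_).trans (e.trans (at_eq (y q) rfl ?_))
      · simp only []
        omega
      · simp only []
        omega
  have hc := Nat.card_le_card_of_injective G hG
  have e : Nat.card (Fin m → (Fin s → A) × (Fin s → A) × (Fin s → A) × (Fin s → A))
      = (Nat.card A ^ s * (Nat.card A ^ s * (Nat.card A ^ s * Nat.card A ^ s))) ^ m := by
    rw [Nat.card_fun, Nat.card_fin, Nat.card_prod, Nat.card_prod, Nat.card_prod, Nat.card_fun,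
      Nat.card_fin]
  rw [e] at hc
  exact hc

/-- bounds extracted from the slope condition -/
lemma slope_bounds {X : Set (ℤ × ℤ → A)} (hX : ∀ v, ∀ x ∈ X, shift v x ∈ X)
    (hB : limsup (fun n : ℕ => ((gluing X n : ℕ∞) : ENNReal) / n) atTop < 1) :
    ∃ (b : ℕ → ℕ) (c : ℝ) (n₀ : ℕ), (∀ n, gluing X n ≤ b n) ∧ 0 ≤ c ∧ c < 1 ∧
      ∀ n, n₀ ≤ n → (b n : ℝ) ≤ c * n := by
  obtain ⟨c, hc1, hc2⟩ := exists_between hB
  have hev := eventually_lt_of_limsup_lt hc1
  obtain ⟨n₁, hn₁⟩ := hev.exists_forall_of_atTop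
  have hctop : c ≠ ⊤ := (hc2.trans ENNReal.one_lt_top).ne
  have hfin : ∀ n, gluing X n ≠ ⊤ := by
    intro n
    have h1 := hn₁ (n₁ + n) (by omega)
    have h3 : gluing X (n₁ + n) ≠ ⊤ := by
      intro h
      rw [h, ENat.toENNReal_top, ENNReal.top_div_of_ne_top (ENNReal.natCast_ne_top _)] at h1
      exact absurd h1 (by simp)
    exact ne_top_of_le_ne_top h3 (gluing_mono hX (by omega))
  have hbeq : ∀ n, (((gluing X n).toNat : ℕ) : ℕ∞) = gluing X n :=
    fun n => ENat.natCast_toNat (hfin n)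
  refine ⟨fun n => (gluing X n).toNat, c.toReal, n₁ + 1, fun n => (hbeq n).ge,
    ENNReal.toReal_nonneg, ?_, ?_⟩
  · have := (ENNReal.toReal_lt_toReal hctop ENNReal.one_ne_top).2 hc2
    simpa using this
  · intro n hn
    have h1 := hn₁ n (by omega)
    have hnpos : (0 : ℝ) < n := by exact_mod_cast (by omega : 0 < n)
    have hn0 : (n : ENNReal) ≠ 0 := by
      have : n ≠ 0 := by omega
      exact_mod_cast this
    rw [← hbeq, ENNReal.div_lt_iff (Or.inl hn0) (Or.inl (ENNReal.natCast_ne_top _))] at h1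
    have h3 : (((gluing X n).toNat : ℕ) : ENNReal) < c * n := by
      simpa using h1
    have h4 := (ENNReal.toReal_lt_toReal (ENNReal.natCast_ne_top _)
      (ENNReal.mul_ne_top hctop (ENNReal.natCast_ne_top _))).2 h3
    rw [ENNReal.toReal_mul, ENNReal.toReal_natCast, ENNReal.toReal_natCast] at h4
    exact h4.le

/-- the open set of the configurations that show the pattern `P` at the place `t` -/
lemma isOpen_block [TopologicalSpace A] [DiscreteTopology A] (m : ℕ) (t : ℤ × ℤ)
    (P : Fin m × Fin m → A) : IsOpen {w : ℤ × ℤ → A | block m (shift t w) = P} := by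
  have e : {w : ℤ × ℤ → A | block m (shift t w) = P} =
      ⋂ i : Fin m × Fin m, {w | w ((((i.1 : ℕ) : ℤ), ((i.2 : ℕ) : ℤ)) + t) = P i} := by
    ext w
    simp only [Set.mem_ofPred_eq, Set.mem_iInter]
    exact funext_iff
  rw [e]
  apply isOpen_iInter_of_finite
  intro i
  exact (isOpen_discrete {P i}).preimage
    (continuous_apply (A := fun _ : ℤ × ℤ => A) ((((i.1 : ℕ) : ℤ), ((i.2 : ℕ) : ℤ)) + t))

/-- **Main theorem.**  In a `ℤ²`-shift of finite type of zero entropy with more than one point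
and `limsup B(n)/n < 1`, every open set that meets `X` contains an open set that meets `X` and is
null for every invariant probability measure on `X`. -/
theorem main [Finite A] [TopologicalSpace A] [DiscreteTopology A] [MeasurableSpace A]
    [MeasurableSingletonClass A] {X : Set (ℤ × ℤ → A)} (hX : IsSFT X) (h2 : X.Nontrivial)
    (hB : limsup (fun n : ℕ => ((gluing X n : ℕ∞) : ENNReal) / n) atTop < 1)
    (h0 : HasEntropy X 0) {U : Set (ℤ × ℤ → A)} (hU : IsOpen U) (hUX : (U ∩ X).Nonempty) :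
    ∃ V ⊆ U, IsOpen V ∧ (V ∩ X).Nonempty ∧
      ∀ μ : Measure (ℤ × ℤ → A), IsInvariantOn X μ → μ V = 0 := by
  classical
  have hsh := isSFT_shift hX
  obtain ⟨s, F, hXF⟩ := hX
  obtain ⟨b, c, n₀, hb, hc0, hc1, hc⟩ := slope_bounds hsh hB
  -- a pattern that is not rigid
  obtain ⟨m, hmN⟩ := exists_N_gt hsh h2 hb hc0 hc1 hc
    (Nat.card A ^ s * (Nat.card A ^ s * (Nat.card A ^ s * Nat.card A ^ s)))
  have hnr : ∃ y ∈ X, ∃ z ∈ X, SameFrame s m y z ∧ block m y ≠ block m z := by
    by_contra hcon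
    push Not at hcon
    exact absurd (N_le_of_rigid hcon) (not_le.2 hmN)
  obtain ⟨y, hy, z, hz, hyz, hne⟩ := hnr
  have hm : 0 < m := by
    rcases Nat.eq_zero_or_pos m with h | h
    · subst h
      exact absurd (funext fun i => i.1.elim0) hne
    · exact h
  -- the open set
  obtain ⟨x, hxU, hxX⟩ := hUX
  obtain ⟨I, u, hu, hIU⟩ := isOpen_pi_iff.1 hU x hxU
  obtain ⟨n, hn⟩ : ∃ n : ℕ, ∀ i ∈ I, i.1.natAbs ≤ n ∧ i.2.natAbs ≤ n := by
    refine ⟨∑ i ∈ I, (i.1.natAbs + i.2.natAbs), fun i hi => ?_⟩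
    have := Finset.single_le_sum (f := fun i : ℤ × ℤ => i.1.natAbs + i.2.natAbs)
      (fun _ _ => Nat.zero_le _) hi
    omega
  set M : ℕ := max (2 * n + 1) m with hM
  have hnM : 2 * n + 1 ≤ M := le_max_left _ _
  have hmM : m ≤ M := le_max_right _ _
  obtain ⟨w, hw, hw1, hw2⟩ := (glues_of_le (hb M)).1 (b M) le_rfl
    (block M (shift (-(n : ℤ), -(n : ℤ)) x)) ⟨_, hsh _ x hxX, rfl⟩ (block M y) ⟨y, hy, rfl⟩
  set t : ℤ × ℤ := (((M + b M : ℕ) : ℤ) - n, -(n : ℤ)) with ht
  refine ⟨{v | ∀ i ∈ I, v i = x i} ∩ {v | block m (shift t v) = block m y}, ?_, ?_, ?_, ?_⟩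
  · rintro v ⟨hv, -⟩
    apply hIU
    intro i hi
    rw [hv i hi]
    exact (hu i hi).2
  · apply IsOpen.inter _ (isOpen_block m t _)
    have e : {v : ℤ × ℤ → A | ∀ i ∈ I, v i = x i} = ⋂ i ∈ I, {v | v i = x i} := by
      ext v; simp
    rw [e]
    exact isOpen_biInter_finset fun i _ => (isOpen_discrete {x i}).preimage
      (continuous_apply (A := fun _ : ℤ × ℤ => A) i)
  · refine ⟨shift ((n : ℤ), (n : ℤ)) w, ⟨?_, ?_⟩, hsh _ w hw⟩
    · intro i hi
      obtain ⟨h1, h3⟩ := hn i hi
      have h4 := congrFun hw1 (⟨(i.1 + n).toNat, by omega⟩, ⟨(i.2 + n).toNat, by omega⟩)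
      simp only [block, shift_apply, Prod.mk_add_mk] at h4
      rw [shift_apply]
      refine (at_eq w ?_ ?_).trans (h4.trans ((at_eq x ?_ ?_).trans rfl))
      · simp only []
        omega
      · simp only []
        omega
      · omega
      · omega
    · rw [Set.mem_ofPred_eq, shift_shift, block_eq_iff]
      intro i j hi hj
      have h4 := congrFun hw2 (⟨i, by omega⟩, ⟨j, by omega⟩)
      simp only [block, shift_apply, Prod.mk_add_mk] at h4
      rw [shift_apply]
      refine (at_eq w ?_ ?_).trans h4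
      · simp only [ht, Prod.mk_add_mk]
        ring
      · simp only [ht, Prod.mk_add_mk]
        ring
  · intro μ hμ
    have h1 := null_of_swap hXF h0 hm hz hyz hne hμ
    have hE : MeasurableSet {x : ℤ × ℤ → A | block m x = block m y} := by
      have hb : Measurable (block m : (ℤ × ℤ → A) → _) :=
        measurable_pi_lambda _ fun i => measurable_pi_apply _
      exact hb (measurableSet_singleton _)
    have h3 := (hμ.invariant t).measure_preimage hE.nullMeasurableSet
    rw [h1] at h3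
    refine measure_mono_null ?_ h3
    rintro v ⟨-, hv⟩
    exact hv

end Pool.Agent.Helper19.MC
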