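import Mathlib
import Pool.Agent.Helper60.BlockGluingDefs
import Pool.Agent.Helper60.BlockGluingProof
import Pool.Agent.Helper19.MC.Defs

/-!
# Ledrappier's shift: `B(n) ≤ n` and entropy dimension one
-/

set_option autoImplicit false
set_option linter.unusedTactic false

open Filter Topology

namespace Pool.Agent.Helper19.MC

open Pool.Agent.Helper60.BlockGluing

/-- Ledrappier's three dot shift -/
def Led : Set (ℤ × ℤ → ZMod 2) := {x | ∀ i j : ℤ, x (i, j + 1) = x (i, j) + x (i + 1, j)}

/-- the next row -/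
def rowD (r : ℤ → ZMod 2) : ℤ → ZMod 2 := fun i => r i + r (i + 1)

/-- a previous row -/
def rowS (r : ℤ → ZMod 2) : ℤ → ZMod 2
  | Int.ofNat n => ∑ t ∈ Finset.range n, r t
  | Int.negSucc n => ∑ t ∈ Finset.range (n + 1), r (Int.negSucc t)

lemma two_cancel (a b : ZMod 2) : a + (a + b) = b := by
  rw [← add_assoc, CharTwo.add_self_eq_zero, zero_add]

lemma two_cancel' (a b : ZMod 2) : (a + b) + a = b := by
  rw [add_comm, two_cancel]

lemma rowD_rowS (r : ℤ → ZMod 2) : rowD (rowS r) = r := by
  funext i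
  unfold rowD
  cases i with
  | ofNat n =>
    have e : (Int.ofNat n + 1) = Int.ofNat (n + 1) := rfl
    rw [e]
    simp only [rowS]
    rw [Finset.sum_range_succ, two_cancel]
    rfl
  | negSucc n =>
    cases n with
    | zero =>
      have e : (Int.negSucc 0 + 1) = Int.ofNat 0 := rfl
      rw [e]
      simp [rowS]
    | succ n =>
      have e : (Int.negSucc (n + 1) + 1) = Int.negSucc n := rfl
      rw [e]
      simp only [rowS]
      rw [Finset.sum_range_succ, two_cancel']

/-- the point with the row `a` at height `0` -/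
def pt (a : ℤ → ZMod 2) : ℤ × ℤ → ZMod 2
  | (i, Int.ofNat n) => rowD^[n] a i
  | (i, Int.negSucc n) => rowS^[n + 1] a i

lemma pt_mem (a : ℤ → ZMod 2) : pt a ∈ Led := by
  intro i j
  cases j with
  | ofNat n =>
    have e : (Int.ofNat n + 1) = Int.ofNat (n + 1) := rfl
    rw [e]
    simp only [pt, Function.iterate_succ_apply', rowD]
  | negSucc n =>
    cases n with
    | zero =>
      have e : (Int.negSucc 0 + 1) = Int.ofNat 0 := rfl
      rw [e]
      simp only [pt, Function.iterate_zero, id, zero_add, Function.iterate_one]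
      exact (congrFun (rowD_rowS a) i).symm
    | succ n =>
      have e : (Int.negSucc (n + 1) + 1) = Int.negSucc n := rfl
      rw [e]
      simp only [pt]
      rw [Function.iterate_succ_apply' rowS (n + 1)]
      exact (congrFun (rowD_rowS (rowS^[n + 1] a)) i).symm

lemma pt_zero (a : ℤ → ZMod 2) (i : ℤ) : pt a (i, 0) = a i := rfl

lemma Led_shift (v : ℤ × ℤ) (x : ℤ × ℤ → ZMod 2) (hx : x ∈ Led) : shift v x ∈ Led := by
  intro i j
  have := hx (i + v.1) (j + v.2)
  simp only [shift_apply]
  refine (at_eq x (by ring) (by ring)).trans (this.trans ?_)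
  congr 1
  exact at_eq x (by ring) (by ring)

lemma Led_isSFT : IsSFT Led := by
  refine ⟨2, {p | p (0, 1) ≠ p (0, 0) + p (1, 0)}, ?_⟩
  ext x
  constructor
  · intro hx v
    have := hx v.1 v.2
    simp only [Set.mem_ofPred_eq, not_not, block, shift_apply]
    refine Eq.trans (at_eq x ?_ ?_) (this.trans ?_)
    · simp
    · simp [add_comm]
    · congr 1
      · exact at_eq x (by simp) (by simp)
      · exact at_eq x (by simp [add_comm]) (by simp)
  · intro hx i j
    have := hx (i, j)
    simp only [Set.mem_ofPred_eq, not_not, block, shift_apply] at this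
    refine Eq.trans (at_eq x ?_ ?_) (this.trans ?_)
    · simp
    · simp [add_comm]
    · congr 1
      · exact at_eq x (by simp) (by simp)
      · exact at_eq x (by simp [add_comm]) (by simp)

lemma Led_agree {x y : ℤ × ℤ → ZMod 2} (hx : x ∈ Led) (hy : y ∈ Led) {m : ℕ}
    (h : ∀ i : ℕ, i < m → x ((i : ℤ), 0) = y ((i : ℤ), 0)) (j : ℕ) :
    ∀ i : ℕ, i + j < m → x ((i : ℤ), (j : ℤ)) = y ((i : ℤ), (j : ℤ)) := by
  induction j with
  | zero => intro i hi; exact h i (by omega)
  | succ j ih =>
    intro i hi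
    have h1 := hx i j
    have h2 := hy i j
    have h3 := ih i (by omega)
    have h4 := ih (i + 1) (by omega)
    push_cast at h4 ⊢
    rw [h1, h2, h3, h4]

lemma Led_block {x y : ℤ × ℤ → ZMod 2} (hx : x ∈ Led) (hy : y ∈ Led) {n : ℕ}
    (h : ∀ i : ℕ, i < 2 * n → x ((i : ℤ), 0) = y ((i : ℤ), 0)) : block n x = block n y := by
  rw [block_eq_iff]
  intro i j hi hj
  exact Led_agree hx hy h j i (by omega)

lemma Led_gluesH (n : ℕ) : GluesH Led n n := by
  rintro k hk p ⟨x, hx, rfl⟩ q ⟨y, hy, rfl⟩
  refine ⟨pt (fun i => if i < (n + k : ℕ) then x (i, 0) else y (i - (n + k : ℕ), 0)), pt_mem _,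
    Led_block (pt_mem _) hx ?_, Led_block (Led_shift _ _ (pt_mem _)) hy ?_⟩
  · intro i hi
    rw [pt_zero, if_pos (by omega)]
  · intro i hi
    rw [shift_apply, Prod.mk_add_mk, add_zero, pt_zero, if_neg (by omega)]
    exact at_eq y (by ring) rfl

lemma Led_swap {x : ℤ × ℤ → ZMod 2} (hx : x ∈ Led) : (fun v : ℤ × ℤ => x (v.2, v.1)) ∈ Led := by
  intro i j
  have h := hx j i
  simp only
  rw [h, two_cancel]

lemma Led_gluesV (n : ℕ) : GluesV Led n n := by
  rintro k hk p ⟨x, hx, rfl⟩ q ⟨y, hy, rfl⟩
  obtain ⟨z, hz, h1, h2⟩ := Led_gluesH n k hk _ ⟨_, Led_swap hx, rfl⟩ _ ⟨_, Led_swap hy, rfl⟩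
  refine ⟨_, Led_swap hz, ?_, ?_⟩
  · funext m
    exact congrFun h1 (m.2, m.1)
  · funext m
    exact congrFun h2 (m.2, m.1)

lemma Led_gluing (n : ℕ) : gluing Led n ≤ n := gluing_le_of_glues (Led_gluesH n) (Led_gluesV n)

lemma Led_nontrivial : Led.Nontrivial := by
  refine ⟨pt (fun _ => 0), pt_mem _, pt (fun _ => 1), pt_mem _, fun h => ?_⟩
  have := congrFun h (0, 0)
  rw [pt_zero, pt_zero] at this
  exact zero_ne_one this

lemma Led_N_le (n : ℕ) : N Led n ≤ 2 ^ (2 * n) := by
  have key : ∀ p : lang Led n, ∃ x ∈ Led, block n x = p.1 := fun p => p.2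
  choose x hxX hx using key
  have := Nat.card_le_card_of_injective (fun p : lang Led n => fun i : Fin (2 * n) =>
    x p (((i : ℕ) : ℤ), 0)) (by
      intro p q hpq
      apply Subtype.ext
      rw [← hx p, ← hx q]
      exact Led_block (hxX p) (hxX q) fun i hi => congrFun hpq ⟨i, hi⟩)
  rw [Nat.card_fun, Nat.card_fin, Nat.card_zmod] at this
  exact this

lemma Led_le_N (n : ℕ) : 2 ^ n ≤ N Led n := by
  have := Nat.card_le_card_of_injective (fun a : Fin n → ZMod 2 =>
    (⟨block n (pt fun i => if h : i.toNat < n then a ⟨i.toNat, h⟩ else 0), _, pt_mem _, rfl⟩ :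
      lang Led n)) (by
      intro a b hab
      funext i
      have h1 := congrArg Subtype.val hab
      simp only at h1
      rw [block_eq_iff] at h1
      have h2 := h1 i 0 i.2 (by have := i.2; omega)
      simpa [pt_zero] using h2)
  rw [Nat.card_fun, Nat.card_fin, Nat.card_zmod] at this
  exact this

lemma Led_dimension : HasEntropyDimension Led 1 := by
  unfold HasEntropyDimension
  have hlog2 : 0 < Real.log 2 := Real.log_pos (by norm_num)
  have hlogt : Tendsto (fun m : ℕ => Real.log m) atTop atTop :=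
    Real.tendsto_log_atTop.comp tendsto_natCast_atTop_atTop
  have hlow : ∀ m : ℕ, 1 ≤ m →
      Real.log m + Real.log (Real.log 2) ≤ Real.log (Real.log (Nat.card (lang Led m))) := by
    intro m hm
    have hm' : (0 : ℝ) < m := by exact_mod_cast hm
    rw [← Real.log_mul hm'.ne' hlog2.ne']
    apply Real.log_le_log (by positivity)
    rw [← Real.log_pow]
    apply Real.log_le_log (by positivity)
    exact_mod_cast Led_le_N m
  have hup : ∀ m : ℕ, 1 ≤ m →
      Real.log (Real.log (Nat.card (lang Led m))) ≤ Real.log m + Real.log (2 * Real.log 2) := by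
    intro m hm
    have hm' : (0 : ℝ) < m := by exact_mod_cast hm
    have h1 : (2 : ℕ) ^ 1 ≤ Nat.card (lang Led m) :=
      (Nat.pow_le_pow_right (by norm_num) hm).trans (Led_le_N m)
    have h1' : (2 : ℝ) ≤ Nat.card (lang Led m) := by exact_mod_cast h1
    rw [← Real.log_mul hm'.ne' (by positivity)]
    apply Real.log_le_log (Real.log_pos (by linarith))
    rw [show (m : ℝ) * (2 * Real.log 2) = ((2 * m : ℕ) : ℝ) * Real.log 2 by push_cast; ring,
      ← Real.log_pow]
    apply Real.log_le_log (by linarith)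
    exact_mod_cast Led_N_le m
  have ht1 : Tendsto (fun m : ℕ => (Real.log m + Real.log (Real.log 2)) / Real.log m) atTop
      (𝓝 1) := by
    have h1 : Tendsto (fun m : ℕ => 1 + Real.log (Real.log 2) / Real.log m) atTop (𝓝 (1 + 0)) :=
      tendsto_const_nhds.add (hlogt.const_div_atTop _)
    rw [add_zero] at h1
    refine h1.congr' ?_
    filter_upwards [hlogt.eventually_gt_atTop 0] with m hm
    field_simp
  have ht2 : Tendsto (fun m : ℕ => (Real.log m + Real.log (2 * Real.log 2)) / Real.log m) atTop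
      (𝓝 1) := by
    have h1 : Tendsto (fun m : ℕ => 1 + Real.log (2 * Real.log 2) / Real.log m) atTop
        (𝓝 (1 + 0)) :=
      tendsto_const_nhds.add (hlogt.const_div_atTop _)
    rw [add_zero] at h1
    refine h1.congr' ?_
    filter_upwards [hlogt.eventually_gt_atTop 0] with m hm
    field_simp
  refine tendsto_of_tendsto_of_tendsto_of_le_of_le' ht1 ht2 ?_ ?_
  · filter_upwards [hlogt.eventually_gt_atTop 0, eventually_ge_atTop 1] with m hm hm1
    exact div_le_div_of_nonneg_right (hlow m hm1) hm.le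
  · filter_upwards [hlogt.eventually_gt_atTop 0, eventually_ge_atTop 1] with m hm hm1
    exact div_le_div_of_nonneg_right (hup m hm1) hm.le

end Pool.Agent.Helper19.MC
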