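import Mathlib
import Pool.Agent.Helper60.BlockGluingDefs
import Pool.Agent.Helper60.BlockGluingProof
import Pool.Agent.Helper19.MC.Defs
import Pool.Agent.Helper19.MC.Ledrappier

/-!
# The Haar measure on Ledrappier's shift
-/

set_option autoImplicit false
set_option linter.unusedTactic false

open Filter Topology MeasureTheory

namespace Pool.Agent.Helper19.MC

open Pool.Agent.Helper60.BlockGluing

/-- Ledrappier's shift as a group -/
def LedG : AddSubgroup (ℤ × ℤ → ZMod 2) where
  carrier := Led
  add_mem' := by
    intro x y hx hy i j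
    simp only [Pi.add_apply]
    rw [hx i j, hy i j]
    abel
  zero_mem' := by
    intro i j
    simp
  neg_mem' := by
    intro x hx i j
    simp only [Pi.neg_apply]
    rw [hx i j]
    abel

lemma Led_closed : IsClosed Led := by
  have e : Led = ⋂ i : ℤ, ⋂ j : ℤ, {x | x (i, j + 1) = x (i, j) + x (i + 1, j)} := by
    ext x; simp [Led]
  rw [e]
  refine isClosed_iInter fun i => isClosed_iInter fun j => isClosed_eq ?_ ?_
  · exact continuous_apply _
  · exact (continuous_apply _).add (continuous_apply _)

instance : CompactSpace LedG := isCompact_iff_compactSpace.1 (Led_closed.isCompact)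

instance : BorelSpace (ℤ × ℤ → ZMod 2) := Pi.borelSpace

instance : BorelSpace LedG := Subtype.borelSpace _

/-- the shift as an endomorphism of the group -/
def LedG.sh (v : ℤ × ℤ) : LedG →+ LedG where
  toFun x := ⟨shift v x.1, Led_shift v _ x.2⟩
  map_zero' := rfl
  map_add' _ _ := rfl

lemma continuous_shift {A : Type} [TopologicalSpace A] (v : ℤ × ℤ) :
    Continuous (shift v : (ℤ × ℤ → A) → (ℤ × ℤ → A)) :=
  continuous_pi fun _ => continuous_apply _

lemma LedG.continuous_sh (v : ℤ × ℤ) : Continuous (LedG.sh v) :=
  Continuous.subtype_mk ((continuous_shift v).comp continuous_subtype_val) _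

lemma LedG.surjective_sh (v : ℤ × ℤ) : Function.Surjective (LedG.sh v) := by
  intro x
  refine ⟨LedG.sh (-v) x, ?_⟩
  apply Subtype.ext
  show shift v (shift (-v) x.1) = x.1
  rw [shift_shift]
  funext m
  simp [shift_apply]

/-- the normalized Haar measure of Ledrappier's shift -/
noncomputable def LedG.haar : Measure LedG := Measure.addHaarMeasure ⊤

instance : IsProbabilityMeasure LedG.haar := ⟨by
  have := Measure.addHaarMeasure_self (G := LedG) (K₀ := ⊤)
  exact this⟩

instance : Measure.IsAddHaarMeasure LedG.haar := by
  unfold LedG.haar; infer_instance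

lemma LedG.haar_map (v : ℤ × ℤ) : Measure.map (LedG.sh v) LedG.haar = LedG.haar := by
  have h1 : Measure.IsAddHaarMeasure (Measure.map (LedG.sh v) LedG.haar) :=
    Measure.isAddHaarMeasure_map_of_isFiniteMeasure _ (LedG.sh v) (LedG.continuous_sh v)
      (LedG.surjective_sh v)
  have h2 : IsProbabilityMeasure (Measure.map (LedG.sh v) LedG.haar) :=
    Measure.isProbabilityMeasure_map (LedG.continuous_sh v).measurable.aemeasurable
  exact Measure.isAddHaarMeasure_eq_of_isProbabilityMeasure _ _

/-- the same measure on the full shift -/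
noncomputable def ledMeasure : Measure (ℤ × ℤ → ZMod 2) :=
  Measure.map (Subtype.val : LedG → _) LedG.haar

lemma ledMeasure_invariantOn : IsInvariantOn Led ledMeasure where
  prob := Measure.isProbabilityMeasure_map measurable_subtype_coe.aemeasurable
  ae_mem := by
    rw [ae_iff]
    have hm : MeasurableSet {a : ℤ × ℤ → ZMod 2 | a ∉ Led} :=
      Led_closed.measurableSet.compl
    rw [ledMeasure, Measure.map_apply measurable_subtype_coe hm]
    have : (Subtype.val : LedG → _) ⁻¹' {a : ℤ × ℤ → ZMod 2 | a ∉ Led} = ∅ := by
      ext x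
      simp only [Set.mem_preimage, Set.mem_ofPred_eq, Set.mem_empty_iff_false, iff_false, not_not]
      exact x.2
    rw [this, measure_empty]
  invariant := by
    intro v
    refine ⟨(continuous_shift v).measurable, ?_⟩
    rw [ledMeasure, Measure.map_map (continuous_shift v).measurable measurable_subtype_coe]
    have e : (shift v : (ℤ × ℤ → ZMod 2) → _) ∘ (Subtype.val : LedG → _)
        = Subtype.val ∘ LedG.sh v := rfl
    rw [e, ← Measure.map_map measurable_subtype_coe (LedG.continuous_sh v).measurable,
      LedG.haar_map]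

lemma ledMeasure_pos {U : Set (ℤ × ℤ → ZMod 2)} (hU : IsOpen U) (h : (U ∩ Led).Nonempty) :
    0 < ledMeasure U := by
  rw [ledMeasure, Measure.map_apply measurable_subtype_coe hU.measurableSet]
  obtain ⟨x, hx, hxL⟩ := h
  exact (hU.preimage continuous_subtype_val).measure_pos _ ⟨⟨x, hxL⟩, hx⟩

lemma Led_entropy : HasEntropy Led 0 := by
  unfold HasEntropy
  have h1 : Tendsto (fun k : ℕ => 2 * Real.log 2 / (k : ℝ)) atTop (𝓝 0) :=
    tendsto_const_div_atTop_nhds_zero_nat _
  refine tendsto_of_tendsto_of_tendsto_of_le_of_le' tendsto_const_nhds h1 ?_ ?_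
  · exact Eventually.of_forall fun k => by positivity
  · filter_upwards [eventually_ge_atTop 1] with k hk
    have hk' : (0 : ℝ) < k := by exact_mod_cast hk
    have hN : (0 : ℝ) < Nat.card (lang Led k) := by
      have := (Nat.pow_pos (n := k) (show 0 < 2 by norm_num)).trans_le (Led_le_N k)
      exact_mod_cast this
    have h2 : Real.log (Nat.card (lang Led k)) ≤ ((2 * k : ℕ) : ℝ) * Real.log 2 := by
      rw [← Real.log_pow]
      apply Real.log_le_log hN
      exact_mod_cast Led_N_le k
    rw [div_le_div_iff₀ (by positivity) hk']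
    push_cast at h2
    nlinarith

end Pool.Agent.Helper19.MC
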