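import Mathlib

/-!
# The exponent `κ(c)`
-/

set_option autoImplicit false

namespace Pool.Agent.Helper19.MC

/-- `ρ(c)`, the positive root of `ρ² = 2 + c ρ`. -/
noncomputable def rho (c : ℝ) : ℝ := (c + √(c ^ 2 + 8)) / 2

/-- `κ(c) = log 2 / log ρ(c)`. -/
noncomputable def kappa (c : ℝ) : ℝ := Real.log 2 / Real.log (rho c)

end Pool.Agent.Helper19.MC
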