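import Mathlib
import Pool.Agent.Helper60.BlockGluingDefs
import Pool.Agent.Helper60.BlockGluingProof
import Pool.Agent.Helper19.MC.Defs
import Pool.Agent.Helper19.MC.SlopeDefs
import Pool.Agent.Helper19.MC.Growth

/-!
# Growth of the number of patterns of a linearly block gluing subshift
-/

set_option autoImplicit false
set_option linter.unusedTactic false

open Filter Topology

namespace Pool.Agent.Helper19.MC

open Pool.Agent.Helper60.BlockGluing

variable {A : Type}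

lemma rho_sq (c : ℝ) : rho c ^ 2 = 2 + c * rho c := by
  have h : √(c ^ 2 + 8) ^ 2 = c ^ 2 + 8 := Real.sq_sqrt (by positivity)
  unfold rho
  linear_combination h / 4

lemma one_lt_rho {c : ℝ} (hc : 0 ≤ c) : 1 < rho c := by
  have h : (2 : ℝ) < √(c ^ 2 + 8) := by
    rw [Real.lt_sqrt (by norm_num)]; nlinarith
  unfold rho; linarith

lemma rho_lt {c d : ℝ} (hc : 0 ≤ c) (hcd : c < d) : rho c < rho d := by
  have h : √(c ^ 2 + 8) ≤ √(d ^ 2 + 8) := Real.sqrt_le_sqrt (by nlinarith)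
  unfold rho; linarith

lemma kappa_pos {c : ℝ} (hc : 0 ≤ c) : 0 < kappa c :=
  div_pos (Real.log_pos (by norm_num)) (Real.log_pos (one_lt_rho hc))

lemma kappa_strictAntiOn : StrictAntiOn kappa (Set.Ici 0) := by
  intro c hc d hd hcd
  have h1 := Real.log_pos (one_lt_rho (Set.mem_Ici.1 hc))
  have h2 : Real.log (rho c) < Real.log (rho d) :=
    Real.log_lt_log (by linarith [one_lt_rho (Set.mem_Ici.1 hc)]) (rho_lt hc hcd)
  exact div_lt_div_of_pos_left (Real.log_pos (by norm_num)) h1 h2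

lemma kappa_zero : kappa 0 = 2 := by
  have h : rho 0 = √2 := by
    unfold rho
    have : √(0 ^ 2 + 8 : ℝ) = 2 * √2 := by
      rw [show (0 ^ 2 + 8 : ℝ) = 2 ^ 2 * 2 by norm_num, Real.sqrt_mul (by norm_num),
        Real.sqrt_sq (by norm_num)]
    rw [this]; ring
  unfold kappa
  rw [h, Real.log_sqrt (by norm_num)]
  have : Real.log 2 ≠ 0 := (Real.log_pos (by norm_num)).ne'
  field_simp

lemma kappa_one : kappa 1 = 1 := by
  have h : rho 1 = 2 := by
    unfold rho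
    rw [show (1 ^ 2 + 8 : ℝ) = 3 ^ 2 by norm_num, Real.sqrt_sq (by norm_num)]
    norm_num
  unfold kappa
  rw [h]
  exact div_self (Real.log_pos (by norm_num)).ne'

lemma rho_rpow_kappa {c : ℝ} (hc : 0 ≤ c) : rho c ^ kappa c = 2 := by
  have h1 := one_lt_rho hc
  rw [Real.rpow_def_of_pos (by linarith), kappa,
    mul_div_cancel₀ _ (Real.log_pos h1).ne', Real.exp_log (by norm_num)]

/-- the rectangle recursion: with slope `c` two doublings multiply the sides by `ρ²`, if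
`2 + c ρ ≤ ρ²` -/
lemma has_rect_slope {X : Set (ℤ × ℤ → A)} (hX : ∀ v, ∀ x ∈ X, shift v x ∈ X) (h2 : X.Nontrivial)
    {b : ℕ → ℕ} {n₀ : ℕ} (hb : ∀ n, n₀ ≤ n → gluing X n ≤ b n) {c ρ : ℝ}
    (hc0 : 0 ≤ c) (hρ1 : 1 ≤ ρ) (hρ2 : 2 + c * ρ ≤ ρ ^ 2)
    (hc : ∀ n, n₀ ≤ n → (b n : ℝ) ≤ c * n) (k : ℕ) :
    ∃ l w : ℕ, (l : ℝ) ≤ (n₀ + 1) * (ρ ^ 2) ^ k ∧
      (w : ℝ) ≤ ρ * ((n₀ + 1) * (ρ ^ 2) ^ k) ∧ Has X l w (2 ^ (4 ^ k)) := by
  induction k with
  | zero =>
    refine ⟨1, 1, ?_, ?_, by simpa using has_two hX h2⟩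
    · have : (0 : ℝ) ≤ n₀ := Nat.cast_nonneg _
      simp only [pow_zero, Nat.cast_one]; linarith
    · have : (0 : ℝ) ≤ n₀ := Nat.cast_nonneg _
      simp only [pow_zero, Nat.cast_one]; nlinarith
  | succ k ih =>
    obtain ⟨l, w, hl, hw, hK⟩ := ih
    set s : ℝ := (n₀ + 1) * (ρ ^ 2) ^ k with hs
    have hs1 : (n₀ : ℝ) + 1 ≤ s := by
      rw [hs]
      have : (1 : ℝ) ≤ (ρ ^ 2) ^ k := one_le_pow₀ (one_le_pow₀ hρ1)
      have h0 : (0 : ℝ) ≤ n₀ + 1 := by positivity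
      nlinarith
    have hs0 : 0 ≤ s := by
      have : (0 : ℝ) ≤ n₀ := Nat.cast_nonneg _
      linarith
    have hsρ : s ≤ ρ * s := by nlinarith
    have hsρ2 : ρ * s ≤ ρ ^ 2 * s := by nlinarith
    -- horizontal doubling
    set M₁ : ℕ := ⌊ρ * s⌋₊ with hM₁
    have hM₁' : (M₁ : ℝ) ≤ ρ * s := Nat.floor_le (by positivity)
    have hlM : l ≤ M₁ := Nat.le_floor (hl.trans hsρ)
    have hwM : w ≤ M₁ := Nat.le_floor hw
    have hnM : n₀ ≤ M₁ := Nat.le_floor (by linarith)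
    have h1 := hK.doubleH hX hlM hwM (glues_of_le (hb M₁ hnM)).1
    have hg1 : (b M₁ : ℝ) ≤ c * (ρ * s) :=
      (hc M₁ hnM).trans (mul_le_mul_of_nonneg_left hM₁' hc0)
    have hl1 : ((2 * l + b M₁ : ℕ) : ℝ) ≤ ρ ^ 2 * s := by
      push_cast
      nlinarith
    -- vertical doubling
    set M₂ : ℕ := ⌊ρ ^ 2 * s⌋₊ with hM₂
    have hM₂' : (M₂ : ℝ) ≤ ρ ^ 2 * s := Nat.floor_le (by positivity)
    have hlM2 : 2 * l + b M₁ ≤ M₂ := Nat.le_floor hl1
    have hwM2 : w ≤ M₂ := Nat.le_floor (hw.trans hsρ2)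
    have hnM2 : n₀ ≤ M₂ := Nat.le_floor (by linarith)
    have h3 := h1.doubleV hX hlM2 hwM2 (glues_of_le (hb M₂ hnM2)).2
    have hg2 : (b M₂ : ℝ) ≤ c * (ρ ^ 2 * s) :=
      (hc M₂ hnM2).trans (mul_le_mul_of_nonneg_left hM₂' hc0)
    have hw1 : ((2 * w + b M₂ : ℕ) : ℝ) ≤ ρ * (ρ ^ 2 * s) := by
      push_cast
      have : ρ * s * (2 + c * ρ) ≤ ρ * s * ρ ^ 2 := mul_le_mul_of_nonneg_left hρ2 (by positivity)
      nlinarith
    refine ⟨2 * l + b M₁, 2 * w + b M₂, ?_, ?_, ?_⟩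
    · refine hl1.trans (le_of_eq ?_)
      rw [hs]; ring
    · refine hw1.trans (le_of_eq ?_)
      rw [hs]; ring
    · have e : (2 : ℕ) ^ 4 ^ (k + 1) = 2 ^ 4 ^ k * 2 ^ 4 ^ k * (2 ^ 4 ^ k * 2 ^ 4 ^ k) := by
        rw [← pow_add, ← pow_add]
        congr 1
        ring
      rw [e]
      exact h3

/-- **Growth**: if `B(n) ≤ c n` for all large `n`, then `|L_m(X)| ≥ exp (α m^κ(c))`. -/
theorem growth [Finite A] {X : Set (ℤ × ℤ → A)} (hX : ∀ v, ∀ x ∈ X, shift v x ∈ X)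
    (h2 : X.Nontrivial) {c : NNReal}
    (hB : ∀ᶠ n : ℕ in atTop, ((gluing X n : ℕ∞) : ENNReal) ≤ c * n) :
    ∃ α : ℝ, 0 < α ∧ ∀ m : ℕ, Real.exp (α * (m : ℝ) ^ kappa c) ≤ N X m := by
  obtain ⟨n₀, hn₀⟩ := hB.exists_forall_of_atTop
  have hc0 : (0 : ℝ) ≤ c := c.2
  have hfin : ∀ n, n₀ ≤ n → gluing X n ≠ ⊤ := by
    intro n hn h
    have h1 := hn₀ n hn
    rw [h, ENat.toENNReal_top, top_le_iff] at h1
    exact ENNReal.mul_ne_top ENNReal.coe_ne_top (ENNReal.natCast_ne_top n) h1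
  have hbeq : ∀ n, n₀ ≤ n → (((gluing X n).toNat : ℕ) : ℕ∞) = gluing X n :=
    fun n hn => ENat.natCast_toNat (hfin n hn)
  have hc : ∀ n, n₀ ≤ n → (((gluing X n).toNat : ℕ) : ℝ) ≤ c * n := by
    intro n hn
    have h1 := hn₀ n hn
    rw [← hbeq n hn, ENat.toENNReal_coe, ← ENNReal.coe_natCast, ← ENNReal.coe_natCast,
      ← ENNReal.coe_mul, ENNReal.coe_le_coe] at h1
    exact_mod_cast h1
  have hρ := one_lt_rho hc0
  have hκ := kappa_pos hc0
  have hrect := has_rect_slope hX h2 (b := fun n => (gluing X n).toNat) (n₀ := n₀)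
    (fun n hn => (hbeq n hn).ge) hc0 hρ.le (rho_sq c).ge hc
  set ρ := rho c with hρd
  set C : ℝ := ρ * (n₀ + 1) with hC
  have hC0 : 0 < C := by positivity
  have hlog2 : 0 < Real.log 2 := Real.log_pos (by norm_num)
  refine ⟨Real.log 2 / 4 * (C ^ kappa c)⁻¹, by positivity, fun m => ?_⟩
  have hα : Real.log 2 / 4 * (C ^ kappa c)⁻¹ * (m : ℝ) ^ kappa c
      = Real.log 2 / 4 * ((m : ℝ) / C) ^ kappa c := by
    rw [Real.div_rpow (Nat.cast_nonneg _) hC0.le]
    ring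
  rw [hα]
  rcases Nat.eq_zero_or_pos m with h0 | hm
  · subst h0
    rw [Nat.cast_zero, zero_div, Real.zero_rpow hκ.ne', mul_zero, Real.exp_zero]
    have : 0 < N X 0 := by
      obtain ⟨x, hx, -⟩ := h2
      have : Nonempty (lang X 0) := ⟨⟨block 0 x, x, hx, rfl⟩⟩
      exact Nat.card_pos
    exact_mod_cast this
  · rcases lt_or_ge ((m : ℝ) / C) 1 with hlt | hge
    · have h1 : ((m : ℝ) / C) ^ kappa c ≤ 1 :=
        Real.rpow_le_one (by positivity) hlt.le hκ.le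
      have h3 : (2 : ℝ) ≤ N X m := by exact_mod_cast two_le_N hX h2 hm
      calc Real.exp (Real.log 2 / 4 * ((m : ℝ) / C) ^ kappa c) ≤ Real.exp (Real.log 2) :=
            Real.exp_le_exp.2 (by nlinarith)
        _ = 2 := Real.exp_log (by norm_num)
        _ ≤ N X m := h3
    · obtain ⟨k, hk1, hk2⟩ := exists_nat_pow_near hge
        (show 1 < ρ ^ 2 from one_lt_pow₀ hρ (by norm_num))
      obtain ⟨l, w, hl, hw, hK⟩ := hrect k
      have hm1 : ρ * ((n₀ + 1) * (ρ ^ 2) ^ k) ≤ m := by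
        rw [le_div_iff₀ hC0] at hk1
        refine le_trans (le_of_eq ?_) hk1
        rw [hC]; ring
      have hnn : 0 ≤ (n₀ + 1) * (ρ ^ 2) ^ k := by positivity
      have hlm : l ≤ m := by
        have : (l : ℝ) ≤ m := hl.trans (le_trans (by nlinarith) hm1)
        exact_mod_cast this
      have hwm : w ≤ m := by
        have : (w : ℝ) ≤ m := hw.trans hm1
        exact_mod_cast this
      have hN := hK.le_N hlm hwm
      have h4 : ((m : ℝ) / C) ^ kappa c ≤ 4 ^ (k + 1) := by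
        calc ((m : ℝ) / C) ^ kappa c ≤ ((ρ ^ 2) ^ (k + 1)) ^ kappa c :=
              Real.rpow_le_rpow (by positivity) hk2.le hκ.le
          _ = (ρ ^ kappa c) ^ (2 * (k + 1)) := by
              rw [← pow_mul, ← Real.rpow_natCast, ← Real.rpow_natCast, ← Real.rpow_mul (by positivity),
                ← Real.rpow_mul (by positivity), mul_comm]
          _ = 4 ^ (k + 1) := by
              rw [hρd, rho_rpow_kappa hc0, pow_mul]; norm_num
      calc Real.exp (Real.log 2 / 4 * ((m : ℝ) / C) ^ kappa c)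
          ≤ Real.exp (Real.log 2 * 4 ^ k) := by
            apply Real.exp_le_exp.2
            rw [pow_succ] at h4
            nlinarith
        _ = ((2 ^ (4 ^ k) : ℕ) : ℝ) := by
            rw [mul_comm, show (4 : ℝ) ^ k = ((4 ^ k : ℕ) : ℝ) by push_cast; rfl, ← Real.log_pow,
              Real.exp_log (by positivity)]
            push_cast
            rfl
        _ ≤ N X m := by exact_mod_cast hN

end Pool.Agent.Helper19.MC
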